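import Pool.Agent.H57.Gmax

set_option autoImplicit false

namespace Pool.Agent.Results.MP_10444e_gt.Independent

open Cardinal Pool.Agent.H57.HurGrp

theorem result :
    ((𝔠 : Cardinal.{0}) = ℵ₁ → ¬ GmaxScheepers) ∧ (MengerProductive → GmaxScheepers) :=
  ⟨gmax_neg, gmax_pos⟩

end Pool.Agent.Results.MP_10444e_gt.Independent
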